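import Mathlib

/-!
Kernel computations for the numbers `(4723 - m) ^ φ(m) + (4722 - m)`:
totients by trial division, factor checks, and base 3 Fermat tests.
-/

namespace Pool.Agent.Q36.SunPhi

/-- least divisor `≥ 2` of `m`, found by trial division by `2, …, 69` -/
def lpfA (m j : ℕ) : ℕ :=
  Nat.rec (motive := fun _ => ℕ) m
    (fun n ih => cond (Nat.beq (Nat.mod m (Nat.sub 69 n)) 0) (Nat.sub 69 n) ih) j

lemma lpfA_zero (m : ℕ) : lpfA m 0 = m := rfl

lemma lpfA_succ (m n : ℕ) :
    lpfA m (n + 1) = if m % (69 - n) = 0 then 69 - n else lpfA m n := by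
  change cond (Nat.beq (m % (69 - n)) 0) (69 - n) (lpfA m n) = _
  by_cases h : m % (69 - n) = 0
  · rw [if_pos h, h]; rfl
  · rw [if_neg h]
    have : Nat.beq (m % (69 - n)) 0 = false := by
      rw [← Bool.not_eq_true, Nat.beq_eq]; exact h
    rw [this]; rfl

lemma lpfA_eq (m : ℕ) (hm : 2 ≤ m) (hm' : m < 4900) :
    ∀ j, j ≤ 68 → (∀ d, 2 ≤ d → d < 70 - j → ¬ d ∣ m) → lpfA m j = m.minFac := by
  intro j
  induction j with
  | zero =>
    intro _ h
    rw [lpfA_zero]
    have hp : m.Prime := by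
      rw [Nat.prime_def_le_sqrt]
      refine ⟨hm, fun d hd hd' => h d hd ?_⟩
      have : m.sqrt < 70 := by rw [Nat.sqrt_lt]; omega
      omega
    exact hp.minFac_eq.symm
  | succ n ih =>
    intro hj h
    rw [lpfA_succ]
    split_ifs with hd
    · have hdv : (69 - n) ∣ m := Nat.dvd_of_mod_eq_zero hd
      apply le_antisymm
      · by_contra hlt
        push Not at hlt
        exact h m.minFac (Nat.minFac_prime (by omega)).two_le (by omega) (Nat.minFac_dvd m)
      · exact Nat.minFac_le_of_dvd (by omega) hdv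
    · apply ih (by omega)
      intro d hd2 hdl hdv
      by_cases he : d = 69 - n
      · subst he; exact hd (Nat.mod_eq_zero_of_dvd hdv)
      · exact h d hd2 (by omega) hdv

lemma lpfA_68 (m : ℕ) (hm : 2 ≤ m) (hm' : m < 4900) : lpfA m 68 = m.minFac :=
  lpfA_eq m hm hm' 68 le_rfl (fun d h2 hd => by omega)

/-- totient by repeated removal of the least prime factor (fuel `f`) -/
def phiA (f : ℕ) : ℕ → ℕ :=
  Nat.rec (motive := fun _ => ℕ → ℕ) (fun _ => 1)
    (fun _ ih m => cond (Nat.ble m 1) 1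
      (Nat.casesOn (motive := fun _ => ℕ) (lpfA m 68) 1
        (fun p => Nat.casesOn (motive := fun _ => ℕ) (Nat.div m (Nat.succ p)) 1
          (fun q => cond (Nat.beq (Nat.mod (Nat.succ q) (Nat.succ p)) 0)
            (Nat.mul (Nat.succ p) (ih (Nat.succ q))) (Nat.mul p (ih (Nat.succ q))))))) f

lemma phiA_eq : ∀ f m, 1 ≤ m → m < 2 ^ f → m < 4900 → phiA f m = m.totient := by
  intro f
  induction f with
  | zero => intro m h1 h2; omega
  | succ f ih =>
    intro m h1 h2 h3
    by_cases hm : m = 1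
    · subst hm; rfl
    have hm2 : 2 ≤ m := by omega
    have hl := lpfA_68 m hm2 h3
    have hpp : (m.minFac).Prime := Nat.minFac_prime (by omega)
    obtain ⟨p, hp⟩ : ∃ p, m.minFac = p + 1 := ⟨m.minFac - 1, by have := hpp.pos; omega⟩
    rw [hp] at hpp
    have hdv : (p + 1) ∣ m := hp ▸ Nat.minFac_dvd m
    obtain ⟨r, hr⟩ := hdv
    have hr0 : 1 ≤ r := by
      rcases Nat.eq_zero_or_pos r with h | h
      · subst h; simp at hr; omega
      · exact h
    obtain ⟨q, rfl⟩ : ∃ q, r = q + 1 := ⟨r - 1, by omega⟩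
    have hdiv : m / (p + 1) = q + 1 := by
      rw [hr]; exact Nat.mul_div_cancel_left _ (by omega)
    have hble : Nat.ble m 1 = false := by
      rw [← Bool.not_eq_true, Nat.ble_eq]; omega
    have hstep : phiA (f + 1) m = cond (Nat.beq ((q + 1) % (p + 1)) 0)
        ((p + 1) * phiA f (q + 1)) (p * phiA f (q + 1)) := by
      change cond (Nat.ble m 1) 1
        (Nat.casesOn (motive := fun _ => ℕ) (lpfA m 68) 1
        (fun p => Nat.casesOn (motive := fun _ => ℕ) (m / (Nat.succ p)) 1
          (fun q => cond (Nat.beq (Nat.mod (Nat.succ q) (Nat.succ p)) 0)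
            (Nat.mul (Nat.succ p) (phiA f (Nat.succ q)))
            (Nat.mul p (phiA f (Nat.succ q)))))) = _
      rw [hble, hl, hp]
      change (Nat.casesOn (motive := fun _ => ℕ) (m / (p + 1)) 1
          (fun q => cond (Nat.beq (Nat.mod (Nat.succ q) (Nat.succ p)) 0)
            (Nat.mul (Nat.succ p) (phiA f (Nat.succ q)))
            (Nat.mul p (phiA f (Nat.succ q))))) = _
      rw [hdiv]
      rfl
    have hp2 : 2 ≤ p + 1 := hpp.two_le
    have hq2 : q + 1 < 2 ^ f := by
      have : 2 * (q + 1) ≤ m := by rw [hr]; exact Nat.mul_le_mul_right _ hp2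
      rw [pow_succ] at h2; omega
    have hq3 : q + 1 < 4900 := by
      have : 1 * (q + 1) ≤ m := by rw [hr]; exact Nat.mul_le_mul_right _ (by omega)
      omega
    rw [hstep, ih (q + 1) (by omega) hq2 hq3]
    by_cases hd : (p + 1) ∣ (q + 1)
    · have h0 : (q + 1) % (p + 1) = 0 := Nat.mod_eq_zero_of_dvd hd
      rw [h0, hr, Nat.totient_mul_of_prime_of_dvd hpp hd]
      rfl
    · have h0 : Nat.beq ((q + 1) % (p + 1)) 0 = false := by
        rw [← Bool.not_eq_true, Nat.beq_eq]
        exact fun h => hd (Nat.dvd_of_mod_eq_zero h)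
      rw [h0, hr, Nat.totient_mul_of_prime_of_not_dvd hpp hd]
      rfl

lemma phiA_13 (m : ℕ) (h1 : 1 ≤ m) (h2 : m < 4900) : phiA 13 m = m.totient :=
  phiA_eq 13 m h1 (by norm_num; omega) h2

/-- the number `(4723 - m) ^ φ(m) + (4722 - m)` as computed by the kernel -/
def val (m : ℕ) : ℕ := Nat.add (Nat.pow (Nat.sub 4723 m) (phiA 13 m)) (Nat.sub 4722 m)

lemma val_eq (m : ℕ) (h1 : 1 ≤ m) (h2 : m < 4900) :
    val m = (4723 - m) ^ (m.totient) + (4722 - m) := by
  change (4723 - m) ^ (phiA 13 m) + (4722 - m) = _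
  rw [phiA_13 m h1 h2]

/-- `p` is a proper divisor of `val m` -/
def chkP (m p : ℕ) : Bool :=
  Nat.casesOn (motive := fun _ => Bool) (val m) false
    (fun s => and (and (Nat.beq (Nat.mod (Nat.succ s) p) 0) (Nat.ble 2 p))
      (Nat.ble p s))

lemma chkP_sound (m p : ℕ) (h : chkP m p = true) : ¬ (val m).Prime := by
  unfold chkP at h
  rcases hv : val m with _ | s
  · exact Nat.not_prime_zero
  · rw [hv] at h
    change and (and (Nat.beq ((s + 1) % p) 0) (Nat.ble 2 p)) (Nat.ble p s) = true at h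
    rw [Bool.and_eq_true, Bool.and_eq_true, Nat.beq_eq, Nat.ble_eq, Nat.ble_eq] at h
    obtain ⟨⟨h1, h2⟩, h3⟩ := h
    intro hp
    have hd : p ∣ (s + 1) := Nat.dvd_of_mod_eq_zero h1
    rcases (Nat.dvd_prime hp).1 hd with h | h <;> omega

/-- squaring modulo `m` -/
def sq (m a : ℕ) : ℕ := Nat.mod (Nat.mul a a) m

/-- one window of eight bits -/
def win (m x i acc : ℕ) : ℕ :=
  Nat.mod (Nat.mul (sq m (sq m (sq m (sq m (sq m (sq m (sq m (sq m acc))))))))
    (Nat.pow 3 (Nat.land (Nat.shiftRight x (Nat.mul 8 i)) 255))) m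

/-- windowed powering: `acc ^ (256 ^ i) * 3 ^ (x % 256 ^ i)` modulo `m` -/
def go (m x : ℕ) (i : ℕ) : ℕ → ℕ :=
  Nat.rec (motive := fun _ => ℕ → ℕ) (fun acc => acc)
    (fun i ih acc => Nat.casesOn (motive := fun _ => ℕ) (win m x i acc) 0
      (fun s => ih (Nat.succ s))) i

lemma sq_modEq {m a b : ℕ} (h : a ≡ b [MOD m]) : sq m a ≡ b ^ 2 [MOD m] := by
  change (a * a) % m ≡ b ^ 2 [MOD m]
  rw [sq_eq]
  exact (Nat.mod_modEq _ _).trans (h.mul h)
where
  sq_eq {b : ℕ} : b ^ 2 = b * b := by ring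

lemma win_modEq (m x i acc : ℕ) :
    win m x i acc ≡ acc ^ 256 * 3 ^ ((x / 256 ^ i) % 256) [MOD m] := by
  have h8 : sq m (sq m (sq m (sq m (sq m (sq m (sq m (sq m acc))))))) ≡ acc ^ 256 [MOD m] := by
    have h := sq_modEq (sq_modEq (sq_modEq (sq_modEq (sq_modEq (sq_modEq (sq_modEq
      (sq_modEq (Nat.ModEq.refl (n := m) acc))))))))
    refine h.trans ?_
    rw [show ((((((((acc ^ 2) ^ 2) ^ 2) ^ 2) ^ 2) ^ 2) ^ 2) ^ 2) = acc ^ 256 by
      simp only [← pow_mul]]
  have hd : Nat.land (Nat.shiftRight x (Nat.mul 8 i)) 255 = (x / 256 ^ i) % 256 := by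
    change (x >>> (8 * i)) &&& 255 = _
    rw [show (255 : ℕ) = 2 ^ 8 - 1 by norm_num, Nat.and_two_pow_sub_one_eq_mod,
      Nat.shiftRight_eq_div_pow, pow_mul]
    norm_num
  change (sq m (sq m (sq m (sq m (sq m (sq m (sq m (sq m acc))))))) *
    3 ^ (Nat.land (Nat.shiftRight x (Nat.mul 8 i)) 255)) % m ≡ _ [MOD m]
  rw [hd]
  exact (Nat.mod_modEq _ _).trans (h8.mul_right _)

lemma go_modEq (m x : ℕ) : ∀ i acc,
    go m x i acc ≡ acc ^ (256 ^ i) * 3 ^ (x % 256 ^ i) [MOD m] := by
  intro i
  induction i with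
  | zero => intro acc; simp [go, Nat.mod_one]; exact Nat.ModEq.refl _
  | succ i ih =>
    intro acc
    have key : go m x (i + 1) acc ≡
        (win m x i acc) ^ (256 ^ i) * 3 ^ (x % 256 ^ i) [MOD m] := by
      have hs : go m x (i + 1) acc = Nat.casesOn (motive := fun _ => ℕ) (win m x i acc) 0
        (fun s => go m x i (Nat.succ s)) := rfl
      rw [hs]
      rcases hw : win m x i acc with _ | s
      · rw [zero_pow (by positivity), zero_mul]
        exact Nat.ModEq.refl _
      · exact ih (s + 1)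
    refine key.trans ?_
    have h1 := ((win_modEq m x i acc).pow (256 ^ i)).mul_right (3 ^ (x % 256 ^ i))
    refine h1.trans ?_
    have : (acc ^ 256 * 3 ^ (x / 256 ^ i % 256)) ^ 256 ^ i * 3 ^ (x % 256 ^ i) =
        acc ^ 256 ^ (i + 1) * 3 ^ (x % 256 ^ (i + 1)) := by
      rw [Nat.mod_pow_succ, mul_pow, ← pow_mul, ← pow_mul, mul_assoc, ← pow_add]
      congr 2
      · ring
      · ring
    rw [this]

/-- base 3 Fermat value `3 ^ N` modulo `N` (up to the final reduction), using `L` windows -/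
def fer (N L : ℕ) : ℕ := go N N L 1

lemma fer_modEq (N L : ℕ) (h : N.Prime) (hL : N < 256 ^ L) : fer N L ≡ 3 [MOD N] := by
  have h1 := go_modEq N N L 1
  rw [one_pow, one_mul, Nat.mod_eq_of_lt hL] at h1
  refine h1.trans ?_
  have : Fact N.Prime := ⟨h⟩
  rw [← ZMod.natCast_eq_natCast_iff]
  push_cast
  exact ZMod.pow_card (3 : ZMod N)

/-- the Fermat test with `L` windows fails for `val m` -/
def chkF (m L : ℕ) : Bool :=
  Nat.casesOn (motive := fun _ => Bool) (val m) false
    (fun s => and (Nat.ble (Nat.succ (Nat.succ s)) (Nat.pow 256 L))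
      (not (Nat.beq (Nat.mod (fer (Nat.succ s) L) (Nat.succ s)) (Nat.mod 3 (Nat.succ s)))))

lemma chkF_sound (m L : ℕ) (h : chkF m L = true) : ¬ (val m).Prime := by
  unfold chkF at h
  rcases hv : val m with _ | s
  · exact Nat.not_prime_zero
  · rw [hv] at h
    change and (Nat.ble (s + 1 + 1) (256 ^ L))
      (!(Nat.beq ((fer (s + 1) L) % (s + 1)) (3 % (s + 1)))) = true at h
    rw [Bool.and_eq_true, Nat.ble_eq] at h
    obtain ⟨hL, h⟩ := h
    intro hp
    have h3 := fer_modEq (s + 1) L hp hL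
    have : Nat.beq ((fer (s + 1) L) % (s + 1)) (3 % (s + 1)) = true := by
      rw [Nat.beq_eq]; exact h3
    rw [this] at h
    exact absurd h (by decide)

/-- all numbers `val m` with `(m, L)` in the list are not prime -/
def allF (l : List (ℕ × ℕ)) : Prop := ∀ q ∈ l, ¬ (val q.1).Prime

lemma allF_nil : allF [] := fun _ h => absurd h List.not_mem_nil

lemma allF_cons {m L : ℕ} {l : List (ℕ × ℕ)} (h : chkF m L = true) (hl : allF l) :
    allF ((m, L) :: l) := by
  intro q hq
  rcases List.mem_cons.1 hq with h' | h'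
  · subst h'; exact chkF_sound m L h
  · exact hl q h'

/-- digit number `m` of the table `D` in base `2 ^ 32` -/
def dig (D m : ℕ) : ℕ := Nat.land (Nat.shiftRight D (Nat.mul 32 m)) 4294967295

/-- all `m` in `[lo, lo + cnt)` with nonzero table entry have that entry as a proper divisor -/
def loopP (D lo cnt : ℕ) : Bool :=
  Nat.rec (motive := fun _ => Bool) true
    (fun n ih => cond (Nat.casesOn (motive := fun _ => Bool) (dig D (Nat.add lo n)) true
      (fun p => chkP (Nat.add lo n) (Nat.succ p))) ih false) cnt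

/-- membership of `m` among the first components of a list -/
def memZ (m : ℕ) (l : List (ℕ × ℕ)) : Bool := l.any (fun q => Nat.beq q.1 m)

/-- all `m` in `[lo, lo + cnt)` with zero table entry are in the list -/
def loopF (D : ℕ) (l : List (ℕ × ℕ)) (lo cnt : ℕ) : Bool :=
  Nat.rec (motive := fun _ => Bool) true
    (fun n ih => cond (Nat.casesOn (motive := fun _ => Bool) (dig D (Nat.add lo n))
      (memZ (Nat.add lo n) l) (fun _ => true)) ih false) cnt

lemma cond_eq_true {a b : Bool} (h : cond a b false = true) : a = true ∧ b = true := by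
  cases a <;> simp_all

lemma loopP_sound (D lo : ℕ) : ∀ cnt, loopP D lo cnt = true →
    ∀ m, lo ≤ m → m < lo + cnt → dig D m ≠ 0 → ¬ (val m).Prime := by
  intro cnt
  induction cnt with
  | zero => intro _ m h1 h2; omega
  | succ n ih =>
    intro h m h1 h2 h3
    obtain ⟨ha, hb⟩ := cond_eq_true (a := Nat.casesOn (motive := fun _ => Bool)
      (dig D (Nat.add lo n)) true (fun p => chkP (Nat.add lo n) (Nat.succ p)))
      (b := loopP D lo n) h
    by_cases hm : m = lo + n
    · subst hm
      change (Nat.casesOn (motive := fun _ => Bool)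
        (dig D (lo + n)) true (fun p => chkP (lo + n) (Nat.succ p)) : Bool) = true at ha
      rcases hd : dig D (lo + n) with _ | p
      · exact absurd hd h3
      · rw [hd] at ha
        exact chkP_sound _ _ ha
    · exact ih hb m h1 (by omega) h3

lemma loopF_sound (D : ℕ) (l : List (ℕ × ℕ)) (hl : allF l) (lo : ℕ) :
    ∀ cnt, loopF D l lo cnt = true →
    ∀ m, lo ≤ m → m < lo + cnt → dig D m = 0 → ¬ (val m).Prime := by
  intro cnt
  induction cnt with
  | zero => intro _ m h1 h2; omega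
  | succ n ih =>
    intro h m h1 h2 h3
    obtain ⟨ha, hb⟩ := cond_eq_true (a := Nat.casesOn (motive := fun _ => Bool)
      (dig D (Nat.add lo n)) (memZ (Nat.add lo n) l) (fun _ => true))
      (b := loopF D l lo n) h
    by_cases hm : m = lo + n
    · subst hm
      change (Nat.casesOn (motive := fun _ => Bool)
        (dig D (lo + n)) (memZ (lo + n) l) (fun _ => true) : Bool) = true at ha
      rw [h3] at ha
      change l.any (fun q => Nat.beq q.1 (lo + n)) = true at ha
      rw [List.any_eq_true] at ha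
      obtain ⟨q, hq, hq2⟩ := ha
      rw [Nat.beq_eq] at hq2
      rw [← hq2]
      exact hl q hq
    · exact ih hb m h1 (by omega) h3

end Pool.Agent.Q36.SunPhi
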