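import Pool.Agent.Q36.SunPhi.Data

namespace Pool.Agent.Q36.SunPhi

/-- values of `m` in the block, with the number of windows used -/
def Z1 : List (ℕ × ℕ) := [(19, 28), (21, 19), (26, 19), (33, 31), (34, 25), (49, 64), (65, 74), (89, 134), (93, 92), (101, 153), (123, 122), (125, 153), (132, 61), (134, 101), (138, 67), (157, 238), (161, 201), (167, 253), (175, 183), (176, 122), (212, 158), (235, 280), (245, 255), (246, 122), (248, 182), (257, 388), (267, 267), (273, 219), (276, 134), (280, 146), (307, 464), (313, 473), (322, 200), (333, 327), (349, 527), (351, 327), (380, 218), (383, 577), (390, 145), (393, 393), (405, 327), (410, 242), (411, 411), (415, 495), (438, 218), (457, 688), (467, 703), (473, 633), (488, 362), (520, 289), (522, 253), (528, 241), (536, 398), (550, 301), (560, 289), (576, 289), (580, 337), (589, 811), (597, 595), (612, 289), (618, 307), (619, 928), (627, 541), (640, 384), (641, 960), (645, 504), (654, 324), (666, 324), (693, 539), (700, 360), (710, 419), (711, 701), (744, 359), (756, 323), (759, 658), (764, 568), (777, 646), (783, 753), (788, 586), (804, 394), (814, 537), (858,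 358), (871, 1180), (873, 858), (875, 894), (915, 714), (916, 678), (917, 1160), (923, 1249), (924, 357), (931, 1124), (937, 1391), (941, 1397), (945, 642), (965, 1141), (970, 570), (980, 499), (983, 1457), (985, 1164), (1022, 641), (1027, 1387), (1028, 759), (1033, 1529), (1038, 510), (1044, 498), (1045, 1067), (1057, 1332), (1059, 1042), (1061, 1569), (1066, 711), (1082, 799), (1084, 799), (1085, 1065), (1092, 426), (1093, 1615), (1098, 533), (1116, 532), (1119, 1099), (1120, 568), (1121, 1542), (1122, 473), (1130, 662), (1131, 993), (1139, 1559), (1161, 1115), (1194, 584), (1199, 1591), (1200, 472), (1207, 1650), (1210, 648), (1221, 1060), (1224, 566), (1228, 901), (1236, 601), (1239, 1024), (1257, 1229), (1258, 847), (1264, 917), (1268, 929), (1274, 741), (1300, 705), (1341, 1302), (1342, 880), (1350, 528), (1371, 1336), (1386, 527), (1391, 1861), (1413, 1369), (1416, 679), (1418, 1035), (1429, 2086), (1435, 1402), (1447, 2111), (1460, 841), (1467, 1418), (1476, 700), (1491, 1225), (1494, 717), (1505, 1469), (1515, 1165), (1519, 1835), (1527, 1479), (1533, 1258), (1546, 1123), (1559, 2265), (1567,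 2276), (1575, 1046), (1581, 1395), (1588, 1150), (1606, 1045), (1612, 1045), (1626, 783), (1631, 2018), (1633, 2232), (1652, 1008), (1653, 1460), (1654, 1197), (1666, 973), (1681, 2373), (1682, 1175), (1689, 1626), (1691, 2291), (1693, 2447), (1697, 2452), (1704, 810), (1722, 694), (1743, 1420), (1748, 1143), (1749, 1500), (1753, 2527), (1755, 1246), (1767, 1557), (1782, 778), (1789, 2575), (1802, 1198), (1815, 1266), (1834, 1121), (1838, 1319), (1852, 1327), (1857, 1775), (1872, 827), (1885, 1928), (1895, 2167), (1898, 1239), (1900, 1032), (1901, 2723), (1906, 1364), (1911, 1444)]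

set_option maxRecDepth 1000000 in
theorem g1 : allF Z1 :=
  allF_cons (m := 19) (L := 28) (by decide +kernel) <|
  allF_cons (m := 21) (L := 19) (by decide +kernel) <|
  allF_cons (m := 26) (L := 19) (by decide +kernel) <|
  allF_cons (m := 33) (L := 31) (by decide +kernel) <|
  allF_cons (m := 34) (L := 25) (by decide +kernel) <|
  allF_cons (m := 49) (L := 64) (by decide +kernel) <|
  allF_cons (m := 65) (L := 74) (by decide +kernel) <|
  allF_cons (m := 89) (L := 134) (by decide +kernel) <|
  allF_cons (m := 93) (L := 92) (by decide +kernel) <|
  allF_cons (m := 101) (L := 153) (by decide +kernel) <|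
  allF_cons (m := 123) (L := 122) (by decide +kernel) <|
  allF_cons (m := 125) (L := 153) (by decide +kernel) <|
  allF_cons (m := 132) (L := 61) (by decide +kernel) <|
  allF_cons (m := 134) (L := 101) (by decide +kernel) <|
  allF_cons (m := 138) (L := 67) (by decide +kernel) <|
  allF_cons (m := 157) (L := 238) (by decide +kernel) <|
  allF_cons (m := 161) (L := 201) (by decide +kernel) <|
  allF_cons (m := 167) (L := 253) (by decide +kernel) <|
  allF_cons (m := 175) (L := 183) (by decide +kernel) <|
  allF_cons (m := 176) (L := 122) (by decide +kernel) <|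
  allF_cons (m := 212) (L := 158) (by decide +kernel) <|
  allF_cons (m := 235) (L := 280) (by decide +kernel) <|
  allF_cons (m := 245) (L := 255) (by decide +kernel) <|
  allF_cons (m := 246) (L := 122) (by decide +kernel) <|
  allF_cons (m := 248) (L := 182) (by decide +kernel) <|
  allF_cons (m := 257) (L := 388) (by decide +kernel) <|
  allF_cons (m := 267) (L := 267) (by decide +kernel) <|
  allF_cons (m := 273) (L := 219) (by decide +kernel) <|
  allF_cons (m := 276) (L := 134) (by decide +kernel) <|
  allF_cons (m := 280) (L := 146) (by decide +kernel) <|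
  allF_cons (m := 307) (L := 464) (by decide +kernel) <|
  allF_cons (m := 313) (L := 473) (by decide +kernel) <|
  allF_cons (m := 322) (L := 200) (by decide +kernel) <|
  allF_cons (m := 333) (L := 327) (by decide +kernel) <|
  allF_cons (m := 349) (L := 527) (by decide +kernel) <|
  allF_cons (m := 351) (L := 327) (by decide +kernel) <|
  allF_cons (m := 380) (L := 218) (by decide +kernel) <|
  allF_cons (m := 383) (L := 577) (by decide +kernel) <|
  allF_cons (m := 390) (L := 145) (by decide +kernel) <|
  allF_cons (m := 393) (L := 393) (by decide +kernel) <|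
  allF_cons (m := 405) (L := 327) (by decide +kernel) <|
  allF_cons (m := 410) (L := 242) (by decide +kernel) <|
  allF_cons (m := 411) (L := 411) (by decide +kernel) <|
  allF_cons (m := 415) (L := 495) (by decide +kernel) <|
  allF_cons (m := 438) (L := 218) (by decide +kernel) <|
  allF_cons (m := 457) (L := 688) (by decide +kernel) <|
  allF_cons (m := 467) (L := 703) (by decide +kernel) <|
  allF_cons (m := 473) (L := 633) (by decide +kernel) <|
  allF_cons (m := 488) (L := 362) (by decide +kernel) <|
  allF_cons (m := 520) (L := 289) (by decide +kernel) <|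
  allF_cons (m := 522) (L := 253) (by decide +kernel) <|
  allF_cons (m := 528) (L := 241) (by decide +kernel) <|
  allF_cons (m := 536) (L := 398) (by decide +kernel) <|
  allF_cons (m := 550) (L := 301) (by decide +kernel) <|
  allF_cons (m := 560) (L := 289) (by decide +kernel) <|
  allF_cons (m := 576) (L := 289) (by decide +kernel) <|
  allF_cons (m := 580) (L := 337) (by decide +kernel) <|
  allF_cons (m := 589) (L := 811) (by decide +kernel) <|
  allF_cons (m := 597) (L := 595) (by decide +kernel) <|
  allF_cons (m := 612) (L := 289) (by decide +kernel) <|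
  allF_cons (m := 618) (L := 307) (by decide +kernel) <|
  allF_cons (m := 619) (L := 928) (by decide +kernel) <|
  allF_cons (m := 627) (L := 541) (by decide +kernel) <|
  allF_cons (m := 640) (L := 384) (by decide +kernel) <|
  allF_cons (m := 641) (L := 960) (by decide +kernel) <|
  allF_cons (m := 645) (L := 504) (by decide +kernel) <|
  allF_cons (m := 654) (L := 324) (by decide +kernel) <|
  allF_cons (m := 666) (L := 324) (by decide +kernel) <|
  allF_cons (m := 693) (L := 539) (by decide +kernel) <|
  allF_cons (m := 700) (L := 360) (by decide +kernel) <|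
  allF_cons (m := 710) (L := 419) (by decide +kernel) <|
  allF_cons (m := 711) (L := 701) (by decide +kernel) <|
  allF_cons (m := 744) (L := 359) (by decide +kernel) <|
  allF_cons (m := 756) (L := 323) (by decide +kernel) <|
  allF_cons (m := 759) (L := 658) (by decide +kernel) <|
  allF_cons (m := 764) (L := 568) (by decide +kernel) <|
  allF_cons (m := 777) (L := 646) (by decide +kernel) <|
  allF_cons (m := 783) (L := 753) (by decide +kernel) <|
  allF_cons (m := 788) (L := 586) (by decide +kernel) <|
  allF_cons (m := 804) (L := 394) (by decide +kernel) <|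
  allF_cons (m := 814) (L := 537) (by decide +kernel) <|
  allF_cons (m := 858) (L := 358) (by decide +kernel) <|
  allF_cons (m := 871) (L := 1180) (by decide +kernel) <|
  allF_cons (m := 873) (L := 858) (by decide +kernel) <|
  allF_cons (m := 875) (L := 894) (by decide +kernel) <|
  allF_cons (m := 915) (L := 714) (by decide +kernel) <|
  allF_cons (m := 916) (L := 678) (by decide +kernel) <|
  allF_cons (m := 917) (L := 1160) (by decide +kernel) <|
  allF_cons (m := 923) (L := 1249) (by decide +kernel) <|
  allF_cons (m := 924) (L := 357) (by decide +kernel) <|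
  allF_cons (m := 931) (L := 1124) (by decide +kernel) <|
  allF_cons (m := 937) (L := 1391) (by decide +kernel) <|
  allF_cons (m := 941) (L := 1397) (by decide +kernel) <|
  allF_cons (m := 945) (L := 642) (by decide +kernel) <|
  allF_cons (m := 965) (L := 1141) (by decide +kernel) <|
  allF_cons (m := 970) (L := 570) (by decide +kernel) <|
  allF_cons (m := 980) (L := 499) (by decide +kernel) <|
  allF_cons (m := 983) (L := 1457) (by decide +kernel) <|
  allF_cons (m := 985) (L := 1164) (by decide +kernel) <|
  allF_cons (m := 1022) (L := 641) (by decide +kernel) <|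
  allF_cons (m := 1027) (L := 1387) (by decide +kernel) <|
  allF_cons (m := 1028) (L := 759) (by decide +kernel) <|
  allF_cons (m := 1033) (L := 1529) (by decide +kernel) <|
  allF_cons (m := 1038) (L := 510) (by decide +kernel) <|
  allF_cons (m := 1044) (L := 498) (by decide +kernel) <|
  allF_cons (m := 1045) (L := 1067) (by decide +kernel) <|
  allF_cons (m := 1057) (L := 1332) (by decide +kernel) <|
  allF_cons (m := 1059) (L := 1042) (by decide +kernel) <|
  allF_cons (m := 1061) (L := 1569) (by decide +kernel) <|
  allF_cons (m := 1066) (L := 711) (by decide +kernel) <|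
  allF_cons (m := 1082) (L := 799) (by decide +kernel) <|
  allF_cons (m := 1084) (L := 799) (by decide +kernel) <|
  allF_cons (m := 1085) (L := 1065) (by decide +kernel) <|
  allF_cons (m := 1092) (L := 426) (by decide +kernel) <|
  allF_cons (m := 1093) (L := 1615) (by decide +kernel) <|
  allF_cons (m := 1098) (L := 533) (by decide +kernel) <|
  allF_cons (m := 1116) (L := 532) (by decide +kernel) <|
  allF_cons (m := 1119) (L := 1099) (by decide +kernel) <|
  allF_cons (m := 1120) (L := 568) (by decide +kernel) <|
  allF_cons (m := 1121) (L := 1542) (by decide +kernel) <|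
  allF_cons (m := 1122) (L := 473) (by decide +kernel) <|
  allF_cons (m := 1130) (L := 662) (by decide +kernel) <|
  allF_cons (m := 1131) (L := 993) (by decide +kernel) <|
  allF_cons (m := 1139) (L := 1559) (by decide +kernel) <|
  allF_cons (m := 1161) (L := 1115) (by decide +kernel) <|
  allF_cons (m := 1194) (L := 584) (by decide +kernel) <|
  allF_cons (m := 1199) (L := 1591) (by decide +kernel) <|
  allF_cons (m := 1200) (L := 472) (by decide +kernel) <|
  allF_cons (m := 1207) (L := 1650) (by decide +kernel) <|
  allF_cons (m := 1210) (L := 648) (by decide +kernel) <|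
  allF_cons (m := 1221) (L := 1060) (by decide +kernel) <|
  allF_cons (m := 1224) (L := 566) (by decide +kernel) <|
  allF_cons (m := 1228) (L := 901) (by decide +kernel) <|
  allF_cons (m := 1236) (L := 601) (by decide +kernel) <|
  allF_cons (m := 1239) (L := 1024) (by decide +kernel) <|
  allF_cons (m := 1257) (L := 1229) (by decide +kernel) <|
  allF_cons (m := 1258) (L := 847) (by decide +kernel) <|
  allF_cons (m := 1264) (L := 917) (by decide +kernel) <|
  allF_cons (m := 1268) (L := 929) (by decide +kernel) <|
  allF_cons (m := 1274) (L := 741) (by decide +kernel) <|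
  allF_cons (m := 1300) (L := 705) (by decide +kernel) <|
  allF_cons (m := 1341) (L := 1302) (by decide +kernel) <|
  allF_cons (m := 1342) (L := 880) (by decide +kernel) <|
  allF_cons (m := 1350) (L := 528) (by decide +kernel) <|
  allF_cons (m := 1371) (L := 1336) (by decide +kernel) <|
  allF_cons (m := 1386) (L := 527) (by decide +kernel) <|
  allF_cons (m := 1391) (L := 1861) (by decide +kernel) <|
  allF_cons (m := 1413) (L := 1369) (by decide +kernel) <|
  allF_cons (m := 1416) (L := 679) (by decide +kernel) <|
  allF_cons (m := 1418) (L := 1035) (by decide +kernel) <|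
  allF_cons (m := 1429) (L := 2086) (by decide +kernel) <|
  allF_cons (m := 1435) (L := 1402) (by decide +kernel) <|
  allF_cons (m := 1447) (L := 2111) (by decide +kernel) <|
  allF_cons (m := 1460) (L := 841) (by decide +kernel) <|
  allF_cons (m := 1467) (L := 1418) (by decide +kernel) <|
  allF_cons (m := 1476) (L := 700) (by decide +kernel) <|
  allF_cons (m := 1491) (L := 1225) (by decide +kernel) <|
  allF_cons (m := 1494) (L := 717) (by decide +kernel) <|
  allF_cons (m := 1505) (L := 1469) (by decide +kernel) <|
  allF_cons (m := 1515) (L := 1165) (by decide +kernel) <|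
  allF_cons (m := 1519) (L := 1835) (by decide +kernel) <|
  allF_cons (m := 1527) (L := 1479) (by decide +kernel) <|
  allF_cons (m := 1533) (L := 1258) (by decide +kernel) <|
  allF_cons (m := 1546) (L := 1123) (by decide +kernel) <|
  allF_cons (m := 1559) (L := 2265) (by decide +kernel) <|
  allF_cons (m := 1567) (L := 2276) (by decide +kernel) <|
  allF_cons (m := 1575) (L := 1046) (by decide +kernel) <|
  allF_cons (m := 1581) (L := 1395) (by decide +kernel) <|
  allF_cons (m := 1588) (L := 1150) (by decide +kernel) <|
  allF_cons (m := 1606) (L := 1045) (by decide +kernel) <|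
  allF_cons (m := 1612) (L := 1045) (by decide +kernel) <|
  allF_cons (m := 1626) (L := 783) (by decide +kernel) <|
  allF_cons (m := 1631) (L := 2018) (by decide +kernel) <|
  allF_cons (m := 1633) (L := 2232) (by decide +kernel) <|
  allF_cons (m := 1652) (L := 1008) (by decide +kernel) <|
  allF_cons (m := 1653) (L := 1460) (by decide +kernel) <|
  allF_cons (m := 1654) (L := 1197) (by decide +kernel) <|
  allF_cons (m := 1666) (L := 973) (by decide +kernel) <|
  allF_cons (m := 1681) (L := 2373) (by decide +kernel) <|
  allF_cons (m := 1682) (L := 1175) (by decide +kernel) <|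
  allF_cons (m := 1689) (L := 1626) (by decide +kernel) <|
  allF_cons (m := 1691) (L := 2291) (by decide +kernel) <|
  allF_cons (m := 1693) (L := 2447) (by decide +kernel) <|
  allF_cons (m := 1697) (L := 2452) (by decide +kernel) <|
  allF_cons (m := 1704) (L := 810) (by decide +kernel) <|
  allF_cons (m := 1722) (L := 694) (by decide +kernel) <|
  allF_cons (m := 1743) (L := 1420) (by decide +kernel) <|
  allF_cons (m := 1748) (L := 1143) (by decide +kernel) <|
  allF_cons (m := 1749) (L := 1500) (by decide +kernel) <|
  allF_cons (m := 1753) (L := 2527) (by decide +kernel) <|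
  allF_cons (m := 1755) (L := 1246) (by decide +kernel) <|
  allF_cons (m := 1767) (L := 1557) (by decide +kernel) <|
  allF_cons (m := 1782) (L := 778) (by decide +kernel) <|
  allF_cons (m := 1789) (L := 2575) (by decide +kernel) <|
  allF_cons (m := 1802) (L := 1198) (by decide +kernel) <|
  allF_cons (m := 1815) (L := 1266) (by decide +kernel) <|
  allF_cons (m := 1834) (L := 1121) (by decide +kernel) <|
  allF_cons (m := 1838) (L := 1319) (by decide +kernel) <|
  allF_cons (m := 1852) (L := 1327) (by decide +kernel) <|
  allF_cons (m := 1857) (L := 1775) (by decide +kernel) <|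
  allF_cons (m := 1872) (L := 827) (by decide +kernel) <|
  allF_cons (m := 1885) (L := 1928) (by decide +kernel) <|
  allF_cons (m := 1895) (L := 2167) (by decide +kernel) <|
  allF_cons (m := 1898) (L := 1239) (by decide +kernel) <|
  allF_cons (m := 1900) (L := 1032) (by decide +kernel) <|
  allF_cons (m := 1901) (L := 2723) (by decide +kernel) <|
  allF_cons (m := 1906) (L := 1364) (by decide +kernel) <|
  allF_cons (m := 1911) (L := 1444) (by decide +kernel) <|
  allF_nil

set_option maxRecDepth 1000000 in
theorem f1 : loopF D Z1 1 1914 = true := by decide +kernel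

theorem e1 : ∀ m, 1 ≤ m → m < 1915 → dig D m = 0 → ¬ (val m).Prime :=
  loopF_sound D Z1 g1 1 1914 f1

end Pool.Agent.Q36.SunPhi
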