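import Pool.Agent.Q36.SunPhi.Data

namespace Pool.Agent.Q36.SunPhi

/-- values of `m` in the block, with the number of windows used -/
def Z10 : List (ℕ × ℕ) := [(3829, 4015), (3843, 2641), (3869, 4558), (3873, 3139), (3878, 2013), (3890, 1883), (3895, 3490), (3898, 2360), (3903, 3146), (3909, 3148), (3912, 1566), (3914, 2217), (3917, 4726), (3926, 2169), (3932, 2364), (3936, 1540), (3941, 4052), (3943, 4735), (3956, 2214), (3958, 2369)]

set_option maxRecDepth 1000000 in
theorem g10 : allF Z10 :=
  allF_cons (m := 3829) (L := 4015) (by decide +kernel) <|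
  allF_cons (m := 3843) (L := 2641) (by decide +kernel) <|
  allF_cons (m := 3869) (L := 4558) (by decide +kernel) <|
  allF_cons (m := 3873) (L := 3139) (by decide +kernel) <|
  allF_cons (m := 3878) (L := 2013) (by decide +kernel) <|
  allF_cons (m := 3890) (L := 1883) (by decide +kernel) <|
  allF_cons (m := 3895) (L := 3490) (by decide +kernel) <|
  allF_cons (m := 3898) (L := 2360) (by decide +kernel) <|
  allF_cons (m := 3903) (L := 3146) (by decide +kernel) <|
  allF_cons (m := 3909) (L := 3148) (by decide +kernel) <|
  allF_cons (m := 3912) (L := 1566) (by decide +kernel) <|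
  allF_cons (m := 3914) (L := 2217) (by decide +kernel) <|
  allF_cons (m := 3917) (L := 4726) (by decide +kernel) <|
  allF_cons (m := 3926) (L := 2169) (by decide +kernel) <|
  allF_cons (m := 3932) (L := 2364) (by decide +kernel) <|
  allF_cons (m := 3936) (L := 1540) (by decide +kernel) <|
  allF_cons (m := 3941) (L := 4052) (by decide +kernel) <|
  allF_cons (m := 3943) (L := 4735) (by decide +kernel) <|
  allF_cons (m := 3956) (L := 2214) (by decide +kernel) <|
  allF_cons (m := 3958) (L := 2369) (by decide +kernel) <|
  allF_nil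

set_option maxRecDepth 1000000 in
theorem f10 : loopF D Z10 3829 140 = true := by decide +kernel

theorem e10 : ∀ m, 3829 ≤ m → m < 3969 → dig D m = 0 → ¬ (val m).Prime :=
  loopF_sound D Z10 g10 3829 140 f10

end Pool.Agent.Q36.SunPhi
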