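import Pool.Agent.Q36.SunPhi.Data

namespace Pool.Agent.Q36.SunPhi

/-- values of `m` in the block, with the number of windows used -/
def Z11 : List (ℕ × ℕ) := [(3969, 2710), (3970, 1893), (3973, 4547), (3977, 4581), (3981, 3161), (3997, 4063), (3998, 2374), (4018, 1987), (4028, 2210), (4032, 1359), (4034, 2376), (4043, 4376), (4055, 3801), (4064, 2360), (4078, 2378), (4079, 4757), (4094, 2250), (4102, 2032), (4108, 2168)]

set_option maxRecDepth 1000000 in
theorem g11 : allF Z11 :=
  allF_cons (m := 3969) (L := 2710) (by decide +kernel) <|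
  allF_cons (m := 3970) (L := 1893) (by decide +kernel) <|
  allF_cons (m := 3973) (L := 4547) (by decide +kernel) <|
  allF_cons (m := 3977) (L := 4581) (by decide +kernel) <|
  allF_cons (m := 3981) (L := 3161) (by decide +kernel) <|
  allF_cons (m := 3997) (L := 4063) (by decide +kernel) <|
  allF_cons (m := 3998) (L := 2374) (by decide +kernel) <|
  allF_cons (m := 4018) (L := 1987) (by decide +kernel) <|
  allF_cons (m := 4028) (L := 2210) (by decide +kernel) <|
  allF_cons (m := 4032) (L := 1359) (by decide +kernel) <|
  allF_cons (m := 4034) (L := 2376) (by decide +kernel) <|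
  allF_cons (m := 4043) (L := 4376) (by decide +kernel) <|
  allF_cons (m := 4055) (L := 3801) (by decide +kernel) <|
  allF_cons (m := 4064) (L := 2360) (by decide +kernel) <|
  allF_cons (m := 4078) (L := 2378) (by decide +kernel) <|
  allF_cons (m := 4079) (L := 4757) (by decide +kernel) <|
  allF_cons (m := 4094) (L := 2250) (by decide +kernel) <|
  allF_cons (m := 4102) (L := 2032) (by decide +kernel) <|
  allF_cons (m := 4108) (L := 2168) (by decide +kernel) <|
  allF_nil

set_option maxRecDepth 1000000 in
theorem f11 : loopF D Z11 3969 146 = true := by decide +kernel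

theorem e11 : ∀ m, 3969 ≤ m → m < 4115 → dig D m = 0 → ¬ (val m).Prime :=
  loopF_sound D Z11 g11 3969 146 f11

end Pool.Agent.Q36.SunPhi
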