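import Pool.Agent.Q36.SunPhi.Data

namespace Pool.Agent.Q36.SunPhi

/-- values of `m` in the block, with the number of windows used -/
def Z12 : List (ℕ × ℕ) := [(4115, 3801), (4130, 1603), (4131, 2984), (4136, 2116), (4139, 4754), (4146, 1583), (4152, 1576), (4162, 2375), (4165, 3066), (4170, 1258), (4174, 2373), (4182, 1453), (4185, 2450), (4190, 1894), (4204, 2368), (4209, 2972), (4213, 4295), (4221, 2665), (4226, 2365), (4228, 2015), (4252, 2358), (4267, 4417), (4294, 2204), (4298, 2004), (4305, 2090), (4310, 1869), (4317, 3116)]

set_option maxRecDepth 1000000 in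
theorem g12 : allF Z12 :=
  allF_cons (m := 4115) (L := 3801) (by decide +kernel) <|
  allF_cons (m := 4130) (L := 1603) (by decide +kernel) <|
  allF_cons (m := 4131) (L := 2984) (by decide +kernel) <|
  allF_cons (m := 4136) (L := 2116) (by decide +kernel) <|
  allF_cons (m := 4139) (L := 4754) (by decide +kernel) <|
  allF_cons (m := 4146) (L := 1583) (by decide +kernel) <|
  allF_cons (m := 4152) (L := 1576) (by decide +kernel) <|
  allF_cons (m := 4162) (L := 2375) (by decide +kernel) <|
  allF_cons (m := 4165) (L := 3066) (by decide +kernel) <|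
  allF_cons (m := 4170) (L := 1258) (by decide +kernel) <|
  allF_cons (m := 4174) (L := 2373) (by decide +kernel) <|
  allF_cons (m := 4182) (L := 1453) (by decide +kernel) <|
  allF_cons (m := 4185) (L := 2450) (by decide +kernel) <|
  allF_cons (m := 4190) (L := 1894) (by decide +kernel) <|
  allF_cons (m := 4204) (L := 2368) (by decide +kernel) <|
  allF_cons (m := 4209) (L := 2972) (by decide +kernel) <|
  allF_cons (m := 4213) (L := 4295) (by decide +kernel) <|
  allF_cons (m := 4221) (L := 2665) (by decide +kernel) <|
  allF_cons (m := 4226) (L := 2365) (by decide +kernel) <|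
  allF_cons (m := 4228) (L := 2015) (by decide +kernel) <|
  allF_cons (m := 4252) (L := 2358) (by decide +kernel) <|
  allF_cons (m := 4267) (L := 4417) (by decide +kernel) <|
  allF_cons (m := 4294) (L := 2204) (by decide +kernel) <|
  allF_cons (m := 4298) (L := 2004) (by decide +kernel) <|
  allF_cons (m := 4305) (L := 2090) (by decide +kernel) <|
  allF_cons (m := 4310) (L := 1869) (by decide +kernel) <|
  allF_cons (m := 4317) (L := 3116) (by decide +kernel) <|
  allF_nil

set_option maxRecDepth 1000000 in
theorem f12 : loopF D Z12 4115 218 = true := by decide +kernel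

theorem e12 : ∀ m, 4115 ≤ m → m < 4333 → dig D m = 0 → ¬ (val m).Prime :=
  loopF_sound D Z12 g12 4115 218 f12

end Pool.Agent.Q36.SunPhi
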