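import Pool.Agent.Q36.SunPhi.Data

namespace Pool.Agent.Q36.SunPhi

/-- values of `m` in the block, with the number of windows used -/
def Z13 : List (ℕ × ℕ) := [(4333, 3990), (4336, 2321), (4340, 1545), (4343, 4500), (4350, 1197), (4354, 1983), (4378, 2087), (4399, 4446), (4401, 3037), (4413, 3042), (4419, 3032), (4420, 1583), (4421, 4552), (4439, 4304), (4441, 4518), (4443, 3008), (4464, 1444), (4469, 4314)]

set_option maxRecDepth 1000000 in
theorem g13 : allF Z13 :=
  allF_cons (m := 4333) (L := 3990) (by decide +kernel) <|
  allF_cons (m := 4336) (L := 2321) (by decide +kernel) <|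
  allF_cons (m := 4340) (L := 1545) (by decide +kernel) <|
  allF_cons (m := 4343) (L := 4500) (by decide +kernel) <|
  allF_cons (m := 4350) (L := 1197) (by decide +kernel) <|
  allF_cons (m := 4354) (L := 1983) (by decide +kernel) <|
  allF_cons (m := 4378) (L := 2087) (by decide +kernel) <|
  allF_cons (m := 4399) (L := 4446) (by decide +kernel) <|
  allF_cons (m := 4401) (L := 3037) (by decide +kernel) <|
  allF_cons (m := 4413) (L := 3042) (by decide +kernel) <|
  allF_cons (m := 4419) (L := 3032) (by decide +kernel) <|
  allF_cons (m := 4420) (L := 1583) (by decide +kernel) <|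
  allF_cons (m := 4421) (L := 4552) (by decide +kernel) <|
  allF_cons (m := 4439) (L := 4304) (by decide +kernel) <|
  allF_cons (m := 4441) (L := 4518) (by decide +kernel) <|
  allF_cons (m := 4443) (L := 3008) (by decide +kernel) <|
  allF_cons (m := 4464) (L := 1444) (by decide +kernel) <|
  allF_cons (m := 4469) (L := 4314) (by decide +kernel) <|
  allF_nil

set_option maxRecDepth 1000000 in
theorem f13 : loopF D Z13 4333 143 = true := by decide +kernel

theorem e13 : ∀ m, 4333 ≤ m → m < 4476 → dig D m = 0 → ¬ (val m).Prime :=
  loopF_sound D Z13 g13 4333 143 f13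

end Pool.Agent.Q36.SunPhi
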