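import Pool.Agent.Q36.SunPhi.Data

namespace Pool.Agent.Q36.SunPhi

/-- values of `m` in the block, with the number of windows used -/
def Z14 : List (ℕ × ℕ) := [(4476, 1479), (4491, 2935), (4495, 3290), (4520, 1718), (4524, 1283), (4529, 3683), (4531, 4089), (4533, 2858), (4560, 1059), (4562, 2090), (4566, 1386), (4569, 2766), (4574, 2063), (4588, 1911), (4593, 2687), (4596, 1335), (4600, 1528), (4601, 3857), (4603, 3974), (4613, 3347), (4623, 2412), (4631, 3425), (4633, 3636), (4640, 1429), (4641, 1831), (4642, 1665), (4644, 1192), (4650, 929), (4659, 2329), (4661, 3368), (4669, 2659), (4685, 2457), (4694, 1425), (4706, 1104), (4709, 2102), (4714, 934)]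

set_option maxRecDepth 1000000 in
theorem g14 : allF Z14 :=
  allF_cons (m := 4476) (L := 1479) (by decide +kernel) <|
  allF_cons (m := 4491) (L := 2935) (by decide +kernel) <|
  allF_cons (m := 4495) (L := 3290) (by decide +kernel) <|
  allF_cons (m := 4520) (L := 1718) (by decide +kernel) <|
  allF_cons (m := 4524) (L := 1283) (by decide +kernel) <|
  allF_cons (m := 4529) (L := 3683) (by decide +kernel) <|
  allF_cons (m := 4531) (L := 4089) (by decide +kernel) <|
  allF_cons (m := 4533) (L := 2858) (by decide +kernel) <|
  allF_cons (m := 4560) (L := 1059) (by decide +kernel) <|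
  allF_cons (m := 4562) (L := 2090) (by decide +kernel) <|
  allF_cons (m := 4566) (L := 1386) (by decide +kernel) <|
  allF_cons (m := 4569) (L := 2766) (by decide +kernel) <|
  allF_cons (m := 4574) (L := 2063) (by decide +kernel) <|
  allF_cons (m := 4588) (L := 1911) (by decide +kernel) <|
  allF_cons (m := 4593) (L := 2687) (by decide +kernel) <|
  allF_cons (m := 4596) (L := 1335) (by decide +kernel) <|
  allF_cons (m := 4600) (L := 1528) (by decide +kernel) <|
  allF_cons (m := 4601) (L := 3857) (by decide +kernel) <|
  allF_cons (m := 4603) (L := 3974) (by decide +kernel) <|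
  allF_cons (m := 4613) (L := 3347) (by decide +kernel) <|
  allF_cons (m := 4623) (L := 2412) (by decide +kernel) <|
  allF_cons (m := 4631) (L := 3425) (by decide +kernel) <|
  allF_cons (m := 4633) (L := 3636) (by decide +kernel) <|
  allF_cons (m := 4640) (L := 1429) (by decide +kernel) <|
  allF_cons (m := 4641) (L := 1831) (by decide +kernel) <|
  allF_cons (m := 4642) (L := 1665) (by decide +kernel) <|
  allF_cons (m := 4644) (L := 1192) (by decide +kernel) <|
  allF_cons (m := 4650) (L := 929) (by decide +kernel) <|
  allF_cons (m := 4659) (L := 2329) (by decide +kernel) <|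
  allF_cons (m := 4661) (L := 3368) (by decide +kernel) <|
  allF_cons (m := 4669) (L := 2659) (by decide +kernel) <|
  allF_cons (m := 4685) (L := 2457) (by decide +kernel) <|
  allF_cons (m := 4694) (L := 1425) (by decide +kernel) <|
  allF_cons (m := 4706) (L := 1104) (by decide +kernel) <|
  allF_cons (m := 4709) (L := 2102) (by decide +kernel) <|
  allF_cons (m := 4714) (L := 934) (by decide +kernel) <|
  allF_nil

set_option maxRecDepth 1000000 in
theorem f14 : loopF D Z14 4476 246 = true := by decide +kernel

theorem e14 : ∀ m, 4476 ≤ m → m < 4722 → dig D m = 0 → ¬ (val m).Prime :=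
  loopF_sound D Z14 g14 4476 246 f14

end Pool.Agent.Q36.SunPhi
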