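import Pool.Agent.Q36.SunPhi.Data

namespace Pool.Agent.Q36.SunPhi

/-- values of `m` in the block, with the number of windows used -/
def Z2 : List (ℕ × ℕ) := [(1915, 2188), (1921, 2566), (1939, 2369), (1940, 1099), (1944, 927), (1952, 1373), (1957, 2625), (1965, 1486), (1989, 1645), (2005, 2282), (2009, 2396), (2016, 821), (2018, 1437), (2022, 958), (2030, 958), (2039, 2902), (2046, 854), (2061, 1946), (2062, 1465), (2071, 2764), (2077, 2814), (2086, 1262), (2102, 1491), (2103, 1988), (2108, 1363), (2123, 2723), (2130, 794), (2134, 1361), (2149, 2601), (2161, 3058), (2169, 2038), (2171, 2819), (2193, 1900), (2205, 1424), (2207, 3116), (2210, 1085), (2215, 2496), (2238, 1049), (2241, 2081), (2247, 1793), (2250, 846), (2252, 1584), (2257, 3043), (2260, 1262), (2267, 3190), (2272, 1577), (2280, 811), (2282, 1368), (2290, 1283), (2299, 2783), (2307, 2158), (2310, 675), (2322, 1062), (2331, 1819), (2345, 2221), (2355, 1749)]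

set_option maxRecDepth 1000000 in
theorem g2 : allF Z2 :=
  allF_cons (m := 1915) (L := 2188) (by decide +kernel) <|
  allF_cons (m := 1921) (L := 2566) (by decide +kernel) <|
  allF_cons (m := 1939) (L := 2369) (by decide +kernel) <|
  allF_cons (m := 1940) (L := 1099) (by decide +kernel) <|
  allF_cons (m := 1944) (L := 927) (by decide +kernel) <|
  allF_cons (m := 1952) (L := 1373) (by decide +kernel) <|
  allF_cons (m := 1957) (L := 2625) (by decide +kernel) <|
  allF_cons (m := 1965) (L := 1486) (by decide +kernel) <|
  allF_cons (m := 1989) (L := 1645) (by decide +kernel) <|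
  allF_cons (m := 2005) (L := 2282) (by decide +kernel) <|
  allF_cons (m := 2009) (L := 2396) (by decide +kernel) <|
  allF_cons (m := 2016) (L := 821) (by decide +kernel) <|
  allF_cons (m := 2018) (L := 1437) (by decide +kernel) <|
  allF_cons (m := 2022) (L := 958) (by decide +kernel) <|
  allF_cons (m := 2030) (L := 958) (by decide +kernel) <|
  allF_cons (m := 2039) (L := 2902) (by decide +kernel) <|
  allF_cons (m := 2046) (L := 854) (by decide +kernel) <|
  allF_cons (m := 2061) (L := 1946) (by decide +kernel) <|
  allF_cons (m := 2062) (L := 1465) (by decide +kernel) <|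
  allF_cons (m := 2071) (L := 2764) (by decide +kernel) <|
  allF_cons (m := 2077) (L := 2814) (by decide +kernel) <|
  allF_cons (m := 2086) (L := 1262) (by decide +kernel) <|
  allF_cons (m := 2102) (L := 1491) (by decide +kernel) <|
  allF_cons (m := 2103) (L := 1988) (by decide +kernel) <|
  allF_cons (m := 2108) (L := 1363) (by decide +kernel) <|
  allF_cons (m := 2123) (L := 2723) (by decide +kernel) <|
  allF_cons (m := 2130) (L := 794) (by decide +kernel) <|
  allF_cons (m := 2134) (L := 1361) (by decide +kernel) <|
  allF_cons (m := 2149) (L := 2601) (by decide +kernel) <|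
  allF_cons (m := 2161) (L := 3058) (by decide +kernel) <|
  allF_cons (m := 2169) (L := 2038) (by decide +kernel) <|
  allF_cons (m := 2171) (L := 2819) (by decide +kernel) <|
  allF_cons (m := 2193) (L := 1900) (by decide +kernel) <|
  allF_cons (m := 2205) (L := 1424) (by decide +kernel) <|
  allF_cons (m := 2207) (L := 3116) (by decide +kernel) <|
  allF_cons (m := 2210) (L := 1085) (by decide +kernel) <|
  allF_cons (m := 2215) (L := 2496) (by decide +kernel) <|
  allF_cons (m := 2238) (L := 1049) (by decide +kernel) <|
  allF_cons (m := 2241) (L := 2081) (by decide +kernel) <|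
  allF_cons (m := 2247) (L := 1793) (by decide +kernel) <|
  allF_cons (m := 2250) (L := 846) (by decide +kernel) <|
  allF_cons (m := 2252) (L := 1584) (by decide +kernel) <|
  allF_cons (m := 2257) (L := 3043) (by decide +kernel) <|
  allF_cons (m := 2260) (L := 1262) (by decide +kernel) <|
  allF_cons (m := 2267) (L := 3190) (by decide +kernel) <|
  allF_cons (m := 2272) (L := 1577) (by decide +kernel) <|
  allF_cons (m := 2280) (L := 811) (by decide +kernel) <|
  allF_cons (m := 2282) (L := 1368) (by decide +kernel) <|
  allF_cons (m := 2290) (L := 1283) (by decide +kernel) <|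
  allF_cons (m := 2299) (L := 2783) (by decide +kernel) <|
  allF_cons (m := 2307) (L := 2158) (by decide +kernel) <|
  allF_cons (m := 2310) (L := 675) (by decide +kernel) <|
  allF_cons (m := 2322) (L := 1062) (by decide +kernel) <|
  allF_cons (m := 2331) (L := 1819) (by decide +kernel) <|
  allF_cons (m := 2345) (L := 2221) (by decide +kernel) <|
  allF_cons (m := 2355) (L := 1749) (by decide +kernel) <|
  allF_nil

set_option maxRecDepth 1000000 in
theorem f2 : loopF D Z2 1915 441 = true := by decide +kernel

theorem e2 : ∀ m, 1915 ≤ m → m < 2356 → dig D m = 0 → ¬ (val m).Prime :=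
  loopF_sound D Z2 g2 1915 441 f2

end Pool.Agent.Q36.SunPhi
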