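import Pool.Agent.Q36.SunPhi.Data

namespace Pool.Agent.Q36.SunPhi

/-- values of `m` in the block, with the number of windows used -/
def Z3 : List (ℕ × ℕ) := [(2356, 1514), (2364, 1098), (2366, 1311), (2370, 874), (2376, 1008), (2377, 3326), (2379, 2016), (2390, 1332), (2404, 1677), (2405, 2415), (2417, 3374), (2421, 2245), (2425, 2680), (2429, 2897), (2431, 2679), (2435, 2712), (2450, 1171), (2452, 1706), (2457, 1806), (2470, 1203), (2471, 2941), (2475, 1671), (2482, 1603), (2491, 3327), (2495, 2770), (2498, 1735), (2505, 1846), (2507, 3301), (2508, 1001), (2518, 1747), (2534, 1498), (2538, 1149), (2539, 3520), (2545, 2817), (2569, 3040), (2574, 997), (2575, 2823), (2583, 1992), (2584, 1594), (2611, 3082), (2618, 1325), (2619, 2385)]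

set_option maxRecDepth 1000000 in
theorem g3 : allF Z3 :=
  allF_cons (m := 2356) (L := 1514) (by decide +kernel) <|
  allF_cons (m := 2364) (L := 1098) (by decide +kernel) <|
  allF_cons (m := 2366) (L := 1311) (by decide +kernel) <|
  allF_cons (m := 2370) (L := 874) (by decide +kernel) <|
  allF_cons (m := 2376) (L := 1008) (by decide +kernel) <|
  allF_cons (m := 2377) (L := 3326) (by decide +kernel) <|
  allF_cons (m := 2379) (L := 2016) (by decide +kernel) <|
  allF_cons (m := 2390) (L := 1332) (by decide +kernel) <|
  allF_cons (m := 2404) (L := 1677) (by decide +kernel) <|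
  allF_cons (m := 2405) (L := 2415) (by decide +kernel) <|
  allF_cons (m := 2417) (L := 3374) (by decide +kernel) <|
  allF_cons (m := 2421) (L := 2245) (by decide +kernel) <|
  allF_cons (m := 2425) (L := 2680) (by decide +kernel) <|
  allF_cons (m := 2429) (L := 2897) (by decide +kernel) <|
  allF_cons (m := 2431) (L := 2679) (by decide +kernel) <|
  allF_cons (m := 2435) (L := 2712) (by decide +kernel) <|
  allF_cons (m := 2450) (L := 1171) (by decide +kernel) <|
  allF_cons (m := 2452) (L := 1706) (by decide +kernel) <|
  allF_cons (m := 2457) (L := 1806) (by decide +kernel) <|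
  allF_cons (m := 2470) (L := 1203) (by decide +kernel) <|
  allF_cons (m := 2471) (L := 2941) (by decide +kernel) <|
  allF_cons (m := 2475) (L := 1671) (by decide +kernel) <|
  allF_cons (m := 2482) (L := 1603) (by decide +kernel) <|
  allF_cons (m := 2491) (L := 3327) (by decide +kernel) <|
  allF_cons (m := 2495) (L := 2770) (by decide +kernel) <|
  allF_cons (m := 2498) (L := 1735) (by decide +kernel) <|
  allF_cons (m := 2505) (L := 1846) (by decide +kernel) <|
  allF_cons (m := 2507) (L := 3301) (by decide +kernel) <|
  allF_cons (m := 2508) (L := 1001) (by decide +kernel) <|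
  allF_cons (m := 2518) (L := 1747) (by decide +kernel) <|
  allF_cons (m := 2534) (L := 1498) (by decide +kernel) <|
  allF_cons (m := 2538) (L := 1149) (by decide +kernel) <|
  allF_cons (m := 2539) (L := 3520) (by decide +kernel) <|
  allF_cons (m := 2545) (L := 2817) (by decide +kernel) <|
  allF_cons (m := 2569) (L := 3040) (by decide +kernel) <|
  allF_cons (m := 2574) (L := 997) (by decide +kernel) <|
  allF_cons (m := 2575) (L := 2823) (by decide +kernel) <|
  allF_cons (m := 2583) (L := 1992) (by decide +kernel) <|
  allF_cons (m := 2584) (L := 1594) (by decide +kernel) <|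
  allF_cons (m := 2611) (L := 3082) (by decide +kernel) <|
  allF_cons (m := 2618) (L := 1325) (by decide +kernel) <|
  allF_cons (m := 2619) (L := 2385) (by decide +kernel) <|
  allF_nil

set_option maxRecDepth 1000000 in
theorem f3 : loopF D Z3 2356 264 = true := by decide +kernel

theorem e3 : ∀ m, 2356 ≤ m → m < 2620 → dig D m = 0 → ¬ (val m).Prime :=
  loopF_sound D Z3 g3 2356 264 f3

end Pool.Agent.Q36.SunPhi
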