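import Pool.Agent.Q36.SunPhi.Data

namespace Pool.Agent.Q36.SunPhi

/-- values of `m` in the block, with the number of windows used -/
def Z4 : List (ℕ × ℕ) := [(2620, 1435), (2636, 1814), (2639, 2779), (2641, 3423), (2644, 1819), (2651, 3306), (2655, 1917), (2666, 1734), (2667, 2081), (2668, 1695), (2674, 1568), (2689, 3693), (2695, 2308), (2704, 1713), (2705, 2965), (2706, 1098), (2718, 1235), (2722, 1865), (2726, 1766), (2728, 1645), (2729, 3738), (2743, 3450), (2768, 1881), (2775, 1968), (2784, 1224), (2805, 1745), (2810, 1527), (2814, 1079), (2819, 3838), (2826, 1275), (2836, 1927), (2848, 1914), (2854, 1938), (2880, 1042), (2884, 1660), (2895, 2081), (2898, 1073), (2915, 2814), (2920, 1558), (2923, 3796)]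

set_option maxRecDepth 1000000 in
theorem g4 : allF Z4 :=
  allF_cons (m := 2620) (L := 1435) (by decide +kernel) <|
  allF_cons (m := 2636) (L := 1814) (by decide +kernel) <|
  allF_cons (m := 2639) (L := 2779) (by decide +kernel) <|
  allF_cons (m := 2641) (L := 3423) (by decide +kernel) <|
  allF_cons (m := 2644) (L := 1819) (by decide +kernel) <|
  allF_cons (m := 2651) (L := 3306) (by decide +kernel) <|
  allF_cons (m := 2655) (L := 1917) (by decide +kernel) <|
  allF_cons (m := 2666) (L := 1734) (by decide +kernel) <|
  allF_cons (m := 2667) (L := 2081) (by decide +kernel) <|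
  allF_cons (m := 2668) (L := 1695) (by decide +kernel) <|
  allF_cons (m := 2674) (L := 1568) (by decide +kernel) <|
  allF_cons (m := 2689) (L := 3693) (by decide +kernel) <|
  allF_cons (m := 2695) (L := 2308) (by decide +kernel) <|
  allF_cons (m := 2704) (L := 1713) (by decide +kernel) <|
  allF_cons (m := 2705) (L := 2965) (by decide +kernel) <|
  allF_cons (m := 2706) (L := 1098) (by decide +kernel) <|
  allF_cons (m := 2718) (L := 1235) (by decide +kernel) <|
  allF_cons (m := 2722) (L := 1865) (by decide +kernel) <|
  allF_cons (m := 2726) (L := 1766) (by decide +kernel) <|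
  allF_cons (m := 2728) (L := 1645) (by decide +kernel) <|
  allF_cons (m := 2729) (L := 3738) (by decide +kernel) <|
  allF_cons (m := 2743) (L := 3450) (by decide +kernel) <|
  allF_cons (m := 2768) (L := 1881) (by decide +kernel) <|
  allF_cons (m := 2775) (L := 1968) (by decide +kernel) <|
  allF_cons (m := 2784) (L := 1224) (by decide +kernel) <|
  allF_cons (m := 2805) (L := 1745) (by decide +kernel) <|
  allF_cons (m := 2810) (L := 1527) (by decide +kernel) <|
  allF_cons (m := 2814) (L := 1079) (by decide +kernel) <|
  allF_cons (m := 2819) (L := 3838) (by decide +kernel) <|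
  allF_cons (m := 2826) (L := 1275) (by decide +kernel) <|
  allF_cons (m := 2836) (L := 1927) (by decide +kernel) <|
  allF_cons (m := 2848) (L := 1914) (by decide +kernel) <|
  allF_cons (m := 2854) (L := 1938) (by decide +kernel) <|
  allF_cons (m := 2880) (L := 1042) (by decide +kernel) <|
  allF_cons (m := 2884) (L := 1660) (by decide +kernel) <|
  allF_cons (m := 2895) (L := 2081) (by decide +kernel) <|
  allF_cons (m := 2898) (L := 1073) (by decide +kernel) <|
  allF_cons (m := 2915) (L := 2814) (by decide +kernel) <|
  allF_cons (m := 2920) (L := 1558) (by decide +kernel) <|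
  allF_cons (m := 2923) (L := 3796) (by decide +kernel) <|
  allF_nil

set_option maxRecDepth 1000000 in
theorem f4 : loopF D Z4 2620 313 = true := by decide +kernel

theorem e4 : ∀ m, 2620 ≤ m → m < 2933 → dig D m = 0 → ¬ (val m).Prime :=
  loopF_sound D Z4 g4 2620 313 f4

end Pool.Agent.Q36.SunPhi
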