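import Pool.Agent.Q36.SunPhi.Data

namespace Pool.Agent.Q36.SunPhi

/-- values of `m` in the block, with the number of windows used -/
def Z5 : List (ℕ × ℕ) := [(2933, 3388), (2935, 3166), (2945, 2915), (2946, 1323), (2948, 1781), (2949, 2650), (2955, 2115), (2956, 1991), (2963, 3992), (2976, 1293), (2983, 3779), (2987, 3842), (2990, 1421), (2993, 3873), (3010, 1354), (3018, 1348), (3020, 1611), (3027, 2704), (3036, 1180), (3042, 1254), (3044, 2036), (3045, 1800), (3049, 4081), (3057, 2724), (3059, 3179), (3075, 2138), (3091, 3736), (3099, 2752)]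

set_option maxRecDepth 1000000 in
theorem g5 : allF Z5 :=
  allF_cons (m := 2933) (L := 3388) (by decide +kernel) <|
  allF_cons (m := 2935) (L := 3166) (by decide +kernel) <|
  allF_cons (m := 2945) (L := 2915) (by decide +kernel) <|
  allF_cons (m := 2946) (L := 1323) (by decide +kernel) <|
  allF_cons (m := 2948) (L := 1781) (by decide +kernel) <|
  allF_cons (m := 2949) (L := 2650) (by decide +kernel) <|
  allF_cons (m := 2955) (L := 2115) (by decide +kernel) <|
  allF_cons (m := 2956) (L := 1991) (by decide +kernel) <|
  allF_cons (m := 2963) (L := 3992) (by decide +kernel) <|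
  allF_cons (m := 2976) (L := 1293) (by decide +kernel) <|
  allF_cons (m := 2983) (L := 3779) (by decide +kernel) <|
  allF_cons (m := 2987) (L := 3842) (by decide +kernel) <|
  allF_cons (m := 2990) (L := 1421) (by decide +kernel) <|
  allF_cons (m := 2993) (L := 3873) (by decide +kernel) <|
  allF_cons (m := 3010) (L := 1354) (by decide +kernel) <|
  allF_cons (m := 3018) (L := 1348) (by decide +kernel) <|
  allF_cons (m := 3020) (L := 1611) (by decide +kernel) <|
  allF_cons (m := 3027) (L := 2704) (by decide +kernel) <|
  allF_cons (m := 3036) (L := 1180) (by decide +kernel) <|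
  allF_cons (m := 3042) (L := 1254) (by decide +kernel) <|
  allF_cons (m := 3044) (L := 2036) (by decide +kernel) <|
  allF_cons (m := 3045) (L := 1800) (by decide +kernel) <|
  allF_cons (m := 3049) (L := 4081) (by decide +kernel) <|
  allF_cons (m := 3057) (L := 2724) (by decide +kernel) <|
  allF_cons (m := 3059) (L := 3179) (by decide +kernel) <|
  allF_cons (m := 3075) (L := 2138) (by decide +kernel) <|
  allF_cons (m := 3091) (L := 3736) (by decide +kernel) <|
  allF_cons (m := 3099) (L := 2752) (by decide +kernel) <|
  allF_nil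

set_option maxRecDepth 1000000 in
theorem f5 : loopF D Z5 2933 178 = true := by decide +kernel

theorem e5 : ∀ m, 2933 ≤ m → m < 3111 → dig D m = 0 → ¬ (val m).Prime :=
  loopF_sound D Z5 g5 2933 178 f5

end Pool.Agent.Q36.SunPhi
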