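import Pool.Agent.Q36.SunPhi.Data

namespace Pool.Agent.Q36.SunPhi

/-- values of `m` in the block, with the number of windows used -/
def Z6 : List (ℕ × ℕ) := [(3111, 2558), (3112, 2067), (3121, 4152), (3138, 1388), (3157, 3184), (3169, 4199), (3171, 2385), (3177, 2797), (3197, 4014), (3198, 1269), (3202, 2115), (3206, 1807), (3239, 4109), (3246, 1422), (3256, 1894), (3260, 1704), (3265, 3427), (3272, 2143), (3275, 3413), (3282, 1433), (3286, 2046), (3290, 1447), (3298, 2012), (3300, 1048), (3303, 2875), (3314, 2166), (3315, 2009), (3325, 2822), (3336, 1441), (3348, 1408), (3351, 2908)]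

set_option maxRecDepth 1000000 in
theorem g6 : allF Z6 :=
  allF_cons (m := 3111) (L := 2558) (by decide +kernel) <|
  allF_cons (m := 3112) (L := 2067) (by decide +kernel) <|
  allF_cons (m := 3121) (L := 4152) (by decide +kernel) <|
  allF_cons (m := 3138) (L := 1388) (by decide +kernel) <|
  allF_cons (m := 3157) (L := 3184) (by decide +kernel) <|
  allF_cons (m := 3169) (L := 4199) (by decide +kernel) <|
  allF_cons (m := 3171) (L := 2385) (by decide +kernel) <|
  allF_cons (m := 3177) (L := 2797) (by decide +kernel) <|
  allF_cons (m := 3197) (L := 4014) (by decide +kernel) <|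
  allF_cons (m := 3198) (L := 1269) (by decide +kernel) <|
  allF_cons (m := 3202) (L := 2115) (by decide +kernel) <|
  allF_cons (m := 3206) (L := 1807) (by decide +kernel) <|
  allF_cons (m := 3239) (L := 4109) (by decide +kernel) <|
  allF_cons (m := 3246) (L := 1422) (by decide +kernel) <|
  allF_cons (m := 3256) (L := 1894) (by decide +kernel) <|
  allF_cons (m := 3260) (L := 1704) (by decide +kernel) <|
  allF_cons (m := 3265) (L := 3427) (by decide +kernel) <|
  allF_cons (m := 3272) (L := 2143) (by decide +kernel) <|
  allF_cons (m := 3275) (L := 3413) (by decide +kernel) <|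
  allF_cons (m := 3282) (L := 1433) (by decide +kernel) <|
  allF_cons (m := 3286) (L := 2046) (by decide +kernel) <|
  allF_cons (m := 3290) (L := 1447) (by decide +kernel) <|
  allF_cons (m := 3298) (L := 2012) (by decide +kernel) <|
  allF_cons (m := 3300) (L := 1048) (by decide +kernel) <|
  allF_cons (m := 3303) (L := 2875) (by decide +kernel) <|
  allF_cons (m := 3314) (L := 2166) (by decide +kernel) <|
  allF_cons (m := 3315) (L := 2009) (by decide +kernel) <|
  allF_cons (m := 3325) (L := 2822) (by decide +kernel) <|
  allF_cons (m := 3336) (L := 1441) (by decide +kernel) <|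
  allF_cons (m := 3348) (L := 1408) (by decide +kernel) <|
  allF_cons (m := 3351) (L := 2908) (by decide +kernel) <|
  allF_nil

set_option maxRecDepth 1000000 in
theorem f6 : loopF D Z6 3111 247 = true := by decide +kernel

theorem e6 : ∀ m, 3111 ≤ m → m < 3358 → dig D m = 0 → ¬ (val m).Prime :=
  loopF_sound D Z6 g6 3111 247 f6

end Pool.Agent.Q36.SunPhi
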