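import Pool.Agent.Q36.SunPhi.Data

namespace Pool.Agent.Q36.SunPhi

/-- values of `m` in the block, with the number of windows used -/
def Z7 : List (ℕ × ℕ) := [(3358, 2063), (3387, 2929), (3390, 1163), (3411, 2937), (3413, 4417), (3414, 1471), (3418, 2210), (3420, 1118), (3438, 1472), (3440, 1735), (3457, 4453), (3465, 1854), (3469, 4462), (3486, 1264), (3489, 2984), (3492, 1479), (3507, 2552), (3509, 3945), (3512, 2243), (3558, 1508), (3573, 3020), (3574, 2270), (3586, 2056), (3588, 1340), (3589, 4384), (3595, 3641), (3596, 2130)]

set_option maxRecDepth 1000000 in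
theorem g7 : allF Z7 :=
  allF_cons (m := 3358) (L := 2063) (by decide +kernel) <|
  allF_cons (m := 3387) (L := 2929) (by decide +kernel) <|
  allF_cons (m := 3390) (L := 1163) (by decide +kernel) <|
  allF_cons (m := 3411) (L := 2937) (by decide +kernel) <|
  allF_cons (m := 3413) (L := 4417) (by decide +kernel) <|
  allF_cons (m := 3414) (L := 1471) (by decide +kernel) <|
  allF_cons (m := 3418) (L := 2210) (by decide +kernel) <|
  allF_cons (m := 3420) (L := 1118) (by decide +kernel) <|
  allF_cons (m := 3438) (L := 1472) (by decide +kernel) <|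
  allF_cons (m := 3440) (L := 1735) (by decide +kernel) <|
  allF_cons (m := 3457) (L := 4453) (by decide +kernel) <|
  allF_cons (m := 3465) (L := 1854) (by decide +kernel) <|
  allF_cons (m := 3469) (L := 4462) (by decide +kernel) <|
  allF_cons (m := 3486) (L := 1264) (by decide +kernel) <|
  allF_cons (m := 3489) (L := 2984) (by decide +kernel) <|
  allF_cons (m := 3492) (L := 1479) (by decide +kernel) <|
  allF_cons (m := 3507) (L := 2552) (by decide +kernel) <|
  allF_cons (m := 3509) (L := 3945) (by decide +kernel) <|
  allF_cons (m := 3512) (L := 2243) (by decide +kernel) <|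
  allF_cons (m := 3558) (L := 1508) (by decide +kernel) <|
  allF_cons (m := 3573) (L := 3020) (by decide +kernel) <|
  allF_cons (m := 3574) (L := 2270) (by decide +kernel) <|
  allF_cons (m := 3586) (L := 2056) (by decide +kernel) <|
  allF_cons (m := 3588) (L := 1340) (by decide +kernel) <|
  allF_cons (m := 3589) (L := 4384) (by decide +kernel) <|
  allF_cons (m := 3595) (L := 3641) (by decide +kernel) <|
  allF_cons (m := 3596) (L := 2130) (by decide +kernel) <|
  allF_nil

set_option maxRecDepth 1000000 in
theorem f7 : loopF D Z7 3358 245 = true := by decide +kernel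

theorem e7 : ∀ m, 3358 ≤ m → m < 3603 → dig D m = 0 → ¬ (val m).Prime :=
  loopF_sound D Z7 g7 3358 245 f7

end Pool.Agent.Q36.SunPhi
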