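import Pool.Agent.Q36.SunPhi.Data

namespace Pool.Agent.Q36.SunPhi

/-- values of `m` in the block, with the number of windows used -/
def Z8 : List (ℕ × ℕ) := [(3603, 3039), (3607, 4564), (3608, 2025), (3617, 4571), (3621, 2830), (3625, 3536), (3626, 1909), (3635, 3662), (3641, 4158), (3649, 4431), (3653, 4227), (3662, 2300), (3663, 2714), (3668, 1959), (3676, 2303), (3679, 4242)]

set_option maxRecDepth 1000000 in
theorem g8 : allF Z8 :=
  allF_cons (m := 3603) (L := 3039) (by decide +kernel) <|
  allF_cons (m := 3607) (L := 4564) (by decide +kernel) <|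
  allF_cons (m := 3608) (L := 2025) (by decide +kernel) <|
  allF_cons (m := 3617) (L := 4571) (by decide +kernel) <|
  allF_cons (m := 3621) (L := 2830) (by decide +kernel) <|
  allF_cons (m := 3625) (L := 3536) (by decide +kernel) <|
  allF_cons (m := 3626) (L := 1909) (by decide +kernel) <|
  allF_cons (m := 3635) (L := 3662) (by decide +kernel) <|
  allF_cons (m := 3641) (L := 4158) (by decide +kernel) <|
  allF_cons (m := 3649) (L := 4431) (by decide +kernel) <|
  allF_cons (m := 3653) (L := 4227) (by decide +kernel) <|
  allF_cons (m := 3662) (L := 2300) (by decide +kernel) <|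
  allF_cons (m := 3663) (L := 2714) (by decide +kernel) <|
  allF_cons (m := 3668) (L := 1959) (by decide +kernel) <|
  allF_cons (m := 3676) (L := 2303) (by decide +kernel) <|
  allF_cons (m := 3679) (L := 4242) (by decide +kernel) <|
  allF_nil

set_option maxRecDepth 1000000 in
theorem f8 : loopF D Z8 3603 80 = true := by decide +kernel

theorem e8 : ∀ m, 3603 ≤ m → m < 3683 → dig D m = 0 → ¬ (val m).Prime :=
  loopF_sound D Z8 g8 3603 80 f8

end Pool.Agent.Q36.SunPhi
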