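import Pool.Agent.Q36.SunPhi.Data

namespace Pool.Agent.Q36.SunPhi

/-- values of `m` in the block, with the number of windows used -/
def Z9 : List (ℕ × ℕ) := [(3683, 4420), (3684, 1534), (3688, 2304), (3689, 3606), (3692, 2103), (3697, 4622), (3712, 2236), (3719, 4635), (3725, 3687), (3762, 1338), (3769, 4662), (3798, 1552), (3799, 4483), (3801, 2660), (3805, 3741), (3806, 2116)]

set_option maxRecDepth 1000000 in
theorem g9 : allF Z9 :=
  allF_cons (m := 3683) (L := 4420) (by decide +kernel) <|
  allF_cons (m := 3684) (L := 1534) (by decide +kernel) <|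
  allF_cons (m := 3688) (L := 2304) (by decide +kernel) <|
  allF_cons (m := 3689) (L := 3606) (by decide +kernel) <|
  allF_cons (m := 3692) (L := 2103) (by decide +kernel) <|
  allF_cons (m := 3697) (L := 4622) (by decide +kernel) <|
  allF_cons (m := 3712) (L := 2236) (by decide +kernel) <|
  allF_cons (m := 3719) (L := 4635) (by decide +kernel) <|
  allF_cons (m := 3725) (L := 3687) (by decide +kernel) <|
  allF_cons (m := 3762) (L := 1338) (by decide +kernel) <|
  allF_cons (m := 3769) (L := 4662) (by decide +kernel) <|
  allF_cons (m := 3798) (L := 1552) (by decide +kernel) <|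
  allF_cons (m := 3799) (L := 4483) (by decide +kernel) <|
  allF_cons (m := 3801) (L := 2660) (by decide +kernel) <|
  allF_cons (m := 3805) (L := 3741) (by decide +kernel) <|
  allF_cons (m := 3806) (L := 2116) (by decide +kernel) <|
  allF_nil

set_option maxRecDepth 1000000 in
theorem f9 : loopF D Z9 3683 146 = true := by decide +kernel

theorem e9 : ∀ m, 3683 ≤ m → m < 3829 → dig D m = 0 → ¬ (val m).Prime :=
  loopF_sound D Z9 g9 3683 146 f9

end Pool.Agent.Q36.SunPhi
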